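import Mathlib
import Pool.Agent.Helper76.XN.ET
import Pool.Agent.Helper77.HK.Chart

/-!
# The equation over the chart has no rational root for general coefficients (all `k ≥ 1`, all `m`)
-/

set_option autoImplicit false

namespace Pool.Agent.Helper23.NSA

open MvPolynomial Pool.Agent.Helper64.HK Pool.Agent.Helper77.HK
open Pool.Agent.Helper28.HN (I aff)

section ex

variable {k m : ℕ} (a : Fin (k + 2) → Fin (m + 1))

/-- The monomial `y 0 ^ 2 t 1`. -/
def e1 : Ix a :=
  ⟨a 0, fun j => if j = 1 then 1 else 0, fun _ => 0⟩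

/-- The monomial `y 1 ^ 2`. -/
def e2 : Ix a :=
  ⟨a 0, fun j => if j = 0 then 1 else 0, fun j => if j.1 = 0 then 1 else 0⟩

/-- The monomials `y (r + 2)`. -/
def e3 (r : Fin m) : Ix a :=
  ⟨(a 0).succAbove r, fun j => if j = 0 then r.succ.succ else 0, fun _ => 0⟩

open Classical in
/-- The example. -/
noncomputable def c0 (S : Type*) [CommRing S] : Ix a → S :=
  fun e => (if e = e1 a then 1 else 0) + (if e = e2 a then 1 else 0) +
    ∑ r : Fin m, if e = e3 a r then 1 else 0

variable {S : Type*} [CommRing S]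

theorem map_c0 {S' : Type*} [CommRing S'] (f : S →+* S') : (fun e => f (c0 a S e)) = c0 a S' := by
  classical
  funext e
  simp only [c0, map_add, map_sum, apply_ite f, map_one, map_zero]

variable {a}

theorem Mf_add (c c' : Ix a → S) (i : Fin (m + 1)) (U V : Fin (k + 2) → I m → S) :
    Mf (fun e => c e + c' e) i U V = Mf c i U V + Mf c' i U V := by
  unfold Mf
  simp only [add_mul, Finset.sum_add_distrib]

theorem Mf_sum (c : Fin m → Ix a → S) (i : Fin (m + 1)) (U V : Fin (k + 2) → I m → S) :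
    Mf (fun e => ∑ r, c r e) i U V = ∑ r, Mf (c r) i U V := by
  unfold Mf
  symm
  rw [Finset.sum_comm]
  refine Finset.sum_congr rfl fun p _ => ?_
  rw [Finset.sum_comm]
  refine Finset.sum_congr rfl fun q _ => ?_
  rw [Finset.sum_mul, Finset.sum_mul]

open Classical in
theorem Mf_single (i : Fin (m + 1)) (p0 : Fin (k + 2) → I m) (q0 : {j // a j = i} → I m)
    (U V : Fin (k + 2) → I m → S) :
    Mf (fun e : Ix a => if e = ⟨i, p0, q0⟩ then (1 : S) else 0) i U V =
      (∏ j, U j (p0 j)) * ∏ j : {j // a j = i}, V j.1 (q0 j) := by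
  unfold Mf
  rw [Finset.sum_eq_single p0]
  · rw [Finset.sum_eq_single q0]
    · beta_reduce
      rw [if_pos rfl, one_mul]
    · intro q _ hq
      beta_reduce
      rw [if_neg, zero_mul, zero_mul]
      intro h
      exact hq (by simpa using h)
    · intro h
      exact absurd (Finset.mem_univ _) h
  · intro p _ hp
    refine Finset.sum_eq_zero fun q _ => ?_
    beta_reduce
    rw [if_neg, zero_mul, zero_mul]
    intro h
    rw [Sigma.mk.injEq] at h
    exact hp (by simpa using (Prod.mk.inj (eq_of_heq h.2)).1)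
  · intro h
    exact absurd (Finset.mem_univ _) h

open Classical in
theorem Mf_single_ne {i i0 : Fin (m + 1)} (hi : i ≠ i0) (x0 : (Fin (k + 2) → I m) × ({j // a j = i0} → I m))
    (U V : Fin (k + 2) → I m → S) :
    Mf (fun e : Ix a => if e = ⟨i0, x0⟩ then (1 : S) else 0) i U V = 0 := by
  unfold Mf
  refine Finset.sum_eq_zero fun p _ => Finset.sum_eq_zero fun q _ => ?_
  beta_reduce
  rw [if_neg, zero_mul, zero_mul]
  intro h
  rw [Sigma.mk.injEq] at h
  exact hi h.1

/-- Points whose factors `j > 0` are in the chart. -/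
def InC (X : Fin (k + 2) → I m → S) : Prop := ∀ j : Fin (k + 1), X j.succ 0 = 1

variable {X : Fin (k + 2) → I m → S} (hX : InC X)

include hX in
theorem prod_e1 (v : I m → S) :
    ∏ j, Function.update X 0 v j ((e1 a).2.1 j) = v 0 * X 1 1 := by
  rw [Fin.prod_univ_succ, Fin.prod_univ_succ, Finset.prod_eq_one]
  · simp [e1]
  · intro j _
    have h : j.succ.succ ≠ (1 : Fin (k + 2)) := by
      intro h
      have := congrArg Fin.val h
      simp at this
    simp only [e1, if_neg h, Function.update_of_ne (Fin.succ_ne_zero _)]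
    exact hX _

include hX in
theorem prod_e2 (v : I m → S) :
    ∏ j, Function.update X 0 v j ((e2 a).2.1 j) = v 1 := by
  rw [Fin.prod_univ_succ, Finset.prod_eq_one]
  · simp [e2]
  · intro j _
    simp only [e2, if_neg (Fin.succ_ne_zero _), Function.update_of_ne (Fin.succ_ne_zero _)]
    exact hX _

include hX in
theorem prod_e3 (v : I m → S) (r : Fin m) :
    ∏ j, Function.update X 0 v j ((e3 a r).2.1 j) = v r.succ.succ := by
  rw [Fin.prod_univ_succ, Finset.prod_eq_one]
  · simp [e3]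
  · intro j _
    simp only [e3, if_neg (Fin.succ_ne_zero _), Function.update_of_ne (Fin.succ_ne_zero _)]
    exact hX _

include hX in
theorem prod_q1 (v : I m → S) :
    ∏ j : {j // a j = (e1 a).1}, Function.update X 0 v j.1 ((e1 a).2.2 j) = v 0 := by
  rw [Finset.prod_eq_single ⟨0, rfl⟩]
  · simp [e1]
  · rintro ⟨j, hj⟩ _ h
    have h0 : j ≠ 0 := fun h' => h (by subst h'; rfl)
    obtain ⟨j, rfl⟩ := Fin.exists_succ_eq.mpr h0
    simp only [e1, Function.update_of_ne (Fin.succ_ne_zero _)]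
    exact hX _
  · intro h
    exact absurd (Finset.mem_univ _) h

include hX in
theorem prod_q2 (v : I m → S) :
    ∏ j : {j // a j = (e2 a).1}, Function.update X 0 v j.1 ((e2 a).2.2 j) = v 1 := by
  rw [Finset.prod_eq_single ⟨0, rfl⟩]
  · simp [e2]
  · rintro ⟨j, hj⟩ _ h
    have h0 : j ≠ 0 := fun h' => h (by subst h'; rfl)
    obtain ⟨j, rfl⟩ := Fin.exists_succ_eq.mpr h0
    simp only [e2, if_neg (Fin.succ_ne_zero _), Function.update_of_ne (Fin.succ_ne_zero _)]
    exact hX _
  · intro h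
    exact absurd (Finset.mem_univ _) h

include hX in
theorem prod_q3 (v : I m → S) (r : Fin m) :
    ∏ j : {j // a j = (e3 a r).1}, Function.update X 0 v j.1 ((e3 a r).2.2 j) = 1 := by
  refine Finset.prod_eq_one ?_
  rintro ⟨j, hj⟩ _
  have h0 : j ≠ 0 := fun h' => by
    subst h'
    exact Fin.succAbove_ne (a 0) r hj.symm
  obtain ⟨j, rfl⟩ := Fin.exists_succ_eq.mpr h0
  simp only [e3, Function.update_of_ne (Fin.succ_ne_zero _)]
  exact hX _

include hX in
theorem Mf_c0 (v w : I m → S) :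
    Mf (c0 a S) (a 0) (Function.update X 0 v) (Function.update X 0 w) =
      v 0 * X 1 1 * w 0 + v 1 * w 1 := by
  classical
  unfold c0
  rw [Mf_add, Mf_add, Mf_sum]
  have h1 := Mf_single (a := a) (a 0) (e1 a).2.1 (e1 a).2.2 (Function.update X 0 v)
    (Function.update X 0 w)
  have h2 := Mf_single (a := a) (a 0) (e2 a).2.1 (e2 a).2.2 (Function.update X 0 v)
    (Function.update X 0 w)
  have g1 := prod_q1 (a := a) hX w
  have g2 := prod_q2 (a := a) hX w
  change ∏ j : {j // a j = a 0}, _ = _ at g1 g2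
  rw [prod_e1 hX, g1] at h1
  rw [prod_e2 hX, g2] at h2
  have h3 : ∑ r, Mf (fun e => if e = e3 a r then (1 : S) else 0) (a 0) (Function.update X 0 v)
      (Function.update X 0 w) = 0 :=
    Finset.sum_eq_zero fun r _ => Mf_single_ne (Fin.succAbove_ne (a 0) r).symm _ _ _
  rw [h3, add_zero]
  exact congrArg₂ _ h1 h2

include hX in
theorem rf_c0 (r : Fin m) (v : I m → S) : rf (c0 a S) 0 X r v = v r.succ.succ := by
  classical
  unfold rf Ef c0
  have g1 : Mf (fun e => if e = e1 a then (1 : S) else 0) ((a 0).succAbove r)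
      (Function.update X 0 v) (Function.update X 0 v) = 0 :=
    Mf_single_ne (Fin.succAbove_ne (a 0) r) _ _ _
  have g2 : Mf (fun e => if e = e2 a then (1 : S) else 0) ((a 0).succAbove r)
      (Function.update X 0 v) (Function.update X 0 v) = 0 :=
    Mf_single_ne (Fin.succAbove_ne (a 0) r) _ _ _
  rw [Mf_add, Mf_add, Mf_sum, g1, g2, add_zero, zero_add, Finset.sum_eq_single r]
  · have h1 := Mf_single (a := a) ((a 0).succAbove r) (e3 a r).2.1 (e3 a r).2.2
      (Function.update X 0 v) (Function.update X 0 v)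
    have g1 := prod_q3 (a := a) hX v r
    change ∏ j : {j // a j = (a 0).succAbove r}, _ = _ at g1
    rw [prod_e3 hX, g1, mul_one] at h1
    exact h1
  · intro r' _ hr
    exact Mf_single_ne (fun h => hr (Fin.succAbove_right_injective h).symm) _ _ _
  · intro h
    exact absurd (Finset.mem_univ _) h

include hX in
theorem Mx_c0 : Mx (c0 a S) X = 1 := by
  ext r b
  unfold Mx
  rw [rf_c0 hX, Matrix.one_apply, Pi.single_apply]
  simp

include hX in
theorem Y0_c0 : Y0 (c0 a S) X 0 = 1 ∧ Y0 (c0 a S) X 1 = 0 := by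
  unfold Y0
  rw [Mx_c0 hX]
  exact ⟨by simp, rfl⟩

include hX in
theorem Y1_c0 : Y1 (c0 a S) X 0 = 0 ∧ Y1 (c0 a S) X 1 = 1 := by
  unfold Y1
  rw [Mx_c0 hX]
  refine ⟨rfl, ?_⟩
  change (Matrix.det 1 : S) = 1
  exact Matrix.det_one

include hX in
theorem disc_c0 : Bh (c0 a S) X ^ 2 - Ah (c0 a S) X * Ch (c0 a S) X = - 4 * X 1 1 := by
  obtain ⟨h1, h2⟩ := Y0_c0 (a := a) hX
  obtain ⟨h3, h4⟩ := Y1_c0 (a := a) hX
  unfold Bh Ah Ch Pf
  simp only [Mf_c0 hX, h1, h2, h3, h4]
  ring


end ex

section gen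

variable {k m : ℕ} {a : Fin (k + 2) → Fin (m + 1)}

/-- A line in the first factor `t`. -/
def uu {S : Type*} [CommRing S] (t : S) : Fin (k + 1) × Fin (m + 1) → S :=
  fun q => if q = (0, 0) then t else 0

/-- The discriminant on the line. -/
noncomputable def dc {S : Type*} [CommRing S] (c : Ix a → S) (t : S) : S :=
  Bh c (ct (uu t)) ^ 2 - Ah c (ct (uu t)) * Ch c (ct (uu t))

/-- The determinant on the line. -/
noncomputable def dD {S : Type*} [CommRing S] (c : Ix a → S) (t : S) : S :=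
  (Mx c (ct (uu t))).det

variable {S S' : Type*} [CommRing S] [CommRing S'] (f : S →+* S')

theorem map_uu (t : S) : (fun l i => f ((ct (uu t) : Fin (k + 2) → I m → S) l i)) = ct (uu (f t)) := by
  rw [map_ct]
  congr 1
  funext q
  simp only [uu, apply_ite f, map_zero]

theorem map_dc (c : Ix a → S) (t : S) : f (dc c t) = dc (fun e => f (c e)) (f t) := by
  rw [dc, map_sub, map_pow, map_mul, map_Ah, map_Bh, map_Ch, map_uu]
  rfl

theorem map_dD (c : Ix a → S) (t : S) : f (dD c t) = dD (fun e => f (c e)) (f t) := by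
  rw [dD, map_det_Mx, map_uu]
  rfl

theorem inC (t : S) : InC (ct (uu t) : Fin (k + 2) → I m → S) := by
  intro j
  simp [ct, aff]

theorem ct_one (t : S) : (ct (uu t) : Fin (k + 2) → I m → S) 1 1 = t := by
  change (Fin.cons 0 (fun j => aff fun i => uu t (j, i)) : Fin (k + 2) → I m → S)
    (0 : Fin (k + 1)).succ 1 = t
  rw [Fin.cons_succ]
  change (Fin.cons 1 (fun i => uu t (0, i)) : Fin (m + 2) → S) (0 : Fin (m + 1)).succ = t
  rw [Fin.cons_succ]
  simp [uu]

theorem dc_c0 (t : S) : dc (c0 a S) t = - 4 * t := by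
  unfold dc
  rw [disc_c0 (inC t), ct_one]

theorem dD_c0 (t : S) : dD (c0 a S) t = 1 := by
  unfold dD
  rw [Mx_c0 (inC t), Matrix.det_one]

variable (a) in
/-- The discriminant as a polynomial in the coefficients and the point. -/
noncomputable def FF : MvPolynomial (Ix a ⊕ Unit) ℚ :=
  dc (fun e => X (Sum.inl e)) (X (Sum.inr ()))

variable (a) in
/-- The determinant as a polynomial in the coefficients and the point. -/
noncomputable def GG : MvPolynomial (Ix a ⊕ Unit) ℚ :=
  dD (fun e => X (Sum.inl e)) (X (Sum.inr ()))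

section L

variable {L : Type*} [Field L] [CharZero L]

/-- Specialisation of the coefficients. -/
noncomputable def sp (c : Ix a → L) : MvPolynomial (Ix a ⊕ Unit) ℚ →ₐ[ℚ] Polynomial L :=
  aeval (Sum.elim (fun e => Polynomial.C (c e)) fun _ => Polynomial.X)

theorem sp_pderiv (c : Ix a → L) (P : MvPolynomial (Ix a ⊕ Unit) ℚ) :
    (sp c P).derivative = sp c (pderiv (Sum.inr ()) P) := by
  classical
  induction P using MvPolynomial.induction_on with
  | C b =>
    rw [show sp c (C b : MvPolynomial (Ix a ⊕ Unit) ℚ) = Polynomial.C (algebraMap ℚ L b) by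
      rw [sp, aeval_C]
      rfl]
    simp
  | add p q hp hq => simp [hp, hq]
  | mul_X p s hp =>
    rw [map_mul, Polynomial.derivative_mul, Derivation.leibniz, map_add, hp]
    simp only [smul_eq_mul, map_mul]
    rcases s with e | i
    · simp [sp, pderiv_X]
      ring
    · simp [sp, pderiv_X]
      ring

theorem eval_sp (c : Ix a → L) (t : Unit → L) (P : MvPolynomial (Ix a ⊕ Unit) ℚ) :
    (sp c P).eval (t ()) = aeval (Sum.elim c t) P := by
  have : ((Polynomial.aeval (t ()) : Polynomial L →ₐ[L] L).restrictScalars ℚ).comp (sp c) =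
      aeval (Sum.elim c t) := by
    ext s
    rcases s with e | i
    · simp [sp]
    · simp [sp]
  have h := DFunLike.congr_fun this P
  rw [← h]
  simp [Polynomial.coe_aeval_eq_eval]

theorem sp_FF (c : Ix a → L) : sp c (FF a) = dc (fun e => Polynomial.C (c e)) Polynomial.X := by
  have h := map_dc (sp c : MvPolynomial (Ix a ⊕ Unit) ℚ →ₐ[ℚ] Polynomial L).toRingHom
    (fun e => X (Sum.inl e)) (X (Sum.inr ()))
  change sp c (FF a) = _ at h
  rw [h]
  congr 1
  · funext e
    simp [sp]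
  · simp [sp]

/-- A simple zero of the discriminant. -/
theorem ns_of (c : Ix a → L) (t : L)
    (h0 : (dc (fun e => Polynomial.C (c e)) Polynomial.X).eval t = 0)
    (h1 : (dc (fun e => Polynomial.C (c e)) Polynomial.X).derivative.eval t ≠ 0) : NS c := by
  have hsq : ∀ w : MvPolynomial (Fin (k + 1) × Fin (m + 1)) L,
      Bp c ^ 2 - Ap c * Cp c ≠ w ^ 2 := by
    intro w hw
    have h2 := congrArg (eval₂Hom Polynomial.C (uu Polynomial.X)) hw
    rw [map_sub, map_pow, map_mul, map_pow, e2_Ap, e2_Bp, e2_Cp] at h2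
    change dc (fun e => Polynomial.C (c e)) Polynomial.X = _ at h2
    rw [h2] at h0 h1
    generalize (eval₂Hom Polynomial.C (uu Polynomial.X)) w = W at h0 h1
    rw [Polynomial.eval_pow, sq_eq_zero_iff] at h0
    apply h1
    rw [Polynomial.derivative_pow]
    simp [h0]
  have hA : Ap c ≠ 0 := by
    intro h
    exact hsq (Bp c) (by rw [h]; ring)
  intro r0 r1 h
  have h2 : (Ap c * r0 - Bp c * r1) ^ 2 = (Bp c ^ 2 - Ap c * Cp c) * r1 ^ 2 := by
    linear_combination Ap c * h
  by_cases hr : r1 = 0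
  · subst hr
    refine ⟨?_, rfl⟩
    have h3 : Ap c * r0 ^ 2 = 0 := by linear_combination h
    rcases mul_eq_zero.1 h3 with h4 | h4
    · exact absurd h4 hA
    · exact pow_eq_zero_iff (two_ne_zero) |>.1 h4
  · exfalso
    have h3 : r1 ^ 2 ∣ (Ap c * r0 - Bp c * r1) ^ 2 := ⟨_, by rw [h2, mul_comm]⟩
    have h4 : r1 ∣ Ap c * r0 - Bp c * r1 := (IsIntegrallyClosed.pow_dvd_pow_iff two_ne_zero).1 h3
    obtain ⟨w, hw⟩ := h4
    refine hsq w ?_
    have h5 : r1 ^ 2 ≠ 0 := pow_ne_zero 2 hr
    refine mul_right_cancel₀ h5 ?_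
    rw [← h2, hw]
    ring

end L

end gen

/-- For general coefficients the equation over the chart has no rational root. -/
theorem exists_ns {k m : ℕ} (hk : 1 ≤ k) (a : Fin (k + 1) → Fin (m + 1)) :
    ∃ Δ : MvPolynomial (Ix a) ℚ, Δ ≠ 0 ∧
      ∀ (K : Type) [Field K] [NumberField K] (c : Ix a → K), aeval c Δ ≠ 0 →
        NS c ∧ Dp c ≠ 0 := by
  obtain ⟨k, rfl⟩ : ∃ l, k = l + 1 := ⟨k - 1, by omega⟩
  have key : ∀ P : MvPolynomial (Ix a ⊕ Unit) ℚ, eval (Sum.elim (c0 a ℚ) fun _ => 0) P =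
      (sp (c0 a ℚ) P).eval 0 := by
    intro P
    rw [eval_sp (c0 a ℚ) (fun _ => 0) P]
    exact congrArg (fun f : ℚ →+* ℚ => eval₂ f (Sum.elim (c0 a ℚ) fun _ => 0) P)
      (Subsingleton.elim (RingHom.id ℚ) _)
  obtain ⟨Δ, hΔ, h⟩ := Helper76.XN.et (E := Ix a) (I := Unit) (fun _ => FF a) (GG a) (c0 a ℚ)
    (fun _ => 0) (fun _ => by
      rw [key, sp_FF, map_c0, dc_c0]
      simp) (by
      rw [Matrix.det_unique, Matrix.of_apply, key]
      change (sp (c0 a ℚ) (pderiv (Sum.inr ()) (FF a))).eval 0 ≠ 0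
      rw [← sp_pderiv, sp_FF, map_c0, dc_c0]
      simp) (by
      have h1 := map_dD (a := a) (eval (Sum.elim (c0 a ℚ) fun _ => 0) :
        MvPolynomial (Ix a ⊕ Unit) ℚ →+* ℚ) (fun e => X (Sum.inl e)) (X (Sum.inr ()))
      change eval _ (GG a) = _ at h1
      rw [h1]
      have h2 : (fun e => eval (Sum.elim (c0 a ℚ) fun _ => 0) (X (Sum.inl e) :
          MvPolynomial (Ix a ⊕ Unit) ℚ)) = c0 a ℚ := by
        funext e
        simp
      rw [h2, dD_c0]
      exact one_ne_zero)
  refine ⟨Δ, hΔ, fun K _ _ c hc => ?_⟩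
  obtain ⟨L, _, _, _, _, x, g1, g2, g3⟩ := h K c hc
  have hns : NS (fun e => algebraMap K L (c e)) := by
    refine ns_of _ (x ()) ?_ ?_
    · rw [← sp_FF, eval_sp]
      exact g1 ()
    · rw [← sp_FF, sp_pderiv, eval_sp]
      rw [Matrix.det_unique, Matrix.of_apply] at g2
      exact g2
  refine ⟨ns_of_map (algebraMap K L) c hns, Dp_ne_of_map (algebraMap K L) c (uu (x ())) ?_⟩
  have h1 := map_dD (a := a) (aeval (Sum.elim (fun e => algebraMap K L (c e)) x) :
    MvPolynomial (Ix a ⊕ Unit) ℚ →ₐ[ℚ] L).toRingHom (fun e => X (Sum.inl e)) (X (Sum.inr ()))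
  change aeval _ (GG a) = _ at h1
  rw [h1] at g3
  have h2 : (fun e => (aeval (Sum.elim (fun e => algebraMap K L (c e)) x) :
      MvPolynomial (Ix a ⊕ Unit) ℚ →ₐ[ℚ] L).toRingHom (X (Sum.inl e))) =
      fun e => algebraMap K L (c e) := by
    funext e
    simp
  rw [h2] at g3
  simpa [dD] using g3

end Pool.Agent.Helper23.NSA
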